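import Pool.Agent.Work.MP_aff8ab_lc.Move

/-! NESTED-UNLOCK is at least as hard as comparing a sum of lengths of integer vectors with an
integer, even when the closed chain is a right isosceles triangle and the open chain is
`x`-monotone. -/

open Finset

namespace Pool.Agent.MP_aff8ab_lc

/-- The length `1 + y 0 + ... + y (m - 1)` of the first and of the last bar of the open chain. -/
def endBar (m : ℕ) (y : ℕ → ℕ) : ℕ := 1 + ∑ i ∈ range m, y i

/-- The hypotenuse of the triangle. -/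
def hyp (m : ℕ) (y : ℕ → ℕ) (D : ℕ) : ℕ := 2 * (endBar m y + D)

/-- The horizontal extents of the `2 m + 2` bars: `endBar`, `x 0`, `x 0`, `x 1`, `x 1`, ...,
`x (m - 1)`, `x (m - 1)`, `endBar`. -/
def barX (m : ℕ) (x y : ℕ → ℕ) (i : ℕ) : ℤ :=
  if i = 0 ∨ i = 2 * m + 1 then endBar m y else x ((i - 1) / 2)

/-- The vertical extents of the `2 m + 2` bars: `0`, `y 0`, `-y 0`, `y 1`, `-y 1`, ...,
`y (m - 1)`, `-y (m - 1)`, `0`. -/
def barY (m : ℕ) (y : ℕ → ℕ) (i : ℕ) : ℤ :=
  if i = 0 ∨ i = 2 * m + 1 then 0 else if i % 2 = 1 then y ((i - 1) / 2) else -y ((i - 1) / 2)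

/-- The open chain: it starts at `(D - ∑ x i, 1 / 2)` and has the bars `(barX i, barY i)`. -/
noncomputable def chain (m : ℕ) (x y : ℕ → ℕ) (D : ℕ) (j : Fin (2 * m + 2 + 1)) : ℂ :=
  ⟨D - ∑ i ∈ range m, (x i : ℝ) + ∑ i ∈ range j, (barX m x y i : ℝ),
    1 / 2 + ∑ i ∈ range j, (barY m y i : ℝ)⟩

section
variable {m : ℕ} {x y : ℕ → ℕ} {D : ℕ}

theorem sum_odd {E : Type*} [AddCommMonoid E] (F : ℕ → E) (r : ℕ) :
    ∑ i ∈ range (2 * r + 1), F i = F 0 + ∑ i ∈ range r, (F (2 * i + 1) + F (2 * i + 2)) := by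
  induction r with
  | zero => simp
  | succ r ih =>
    rw [show 2 * (r + 1) + 1 = 2 * r + 1 + 1 + 1 by ring, sum_range_succ, sum_range_succ, ih,
      sum_range_succ _ r]
    simp only [add_assoc]

theorem barX_odd {i : ℕ} (_ : i < m) : barX m x y (2 * i + 1) = x i := by
  rw [barX, if_neg (by omega), show (2 * i + 1 - 1) / 2 = i by omega]

theorem barX_even {i : ℕ} (hi : i < m) : barX m x y (2 * i + 2) = x i := by
  rw [barX, if_neg (by omega), show (2 * i + 2 - 1) / 2 = i by omega]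

theorem barY_odd {i : ℕ} (_ : i < m) : barY m y (2 * i + 1) = y i := by
  rw [barY, if_neg (by omega), if_pos (by omega), show (2 * i + 1 - 1) / 2 = i by omega]

theorem barY_even {i : ℕ} (hi : i < m) : barY m y (2 * i + 2) = -y i := by
  rw [barY, if_neg (by omega), if_neg (by omega), show (2 * i + 2 - 1) / 2 = i by omega]

theorem barX_zero : barX m x y 0 = endBar m y := by simp [barX]

theorem barX_last : barX m x y (2 * m + 1) = endBar m y := by simp [barX]

theorem barY_zero : barY m y 0 = 0 := by simp [barY]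

theorem barY_last : barY m y (2 * m + 1) = 0 := by simp [barY]

theorem sumY_odd {r : ℕ} (hr : r ≤ m) : ∑ i ∈ range (2 * r + 1), (barY m y i : ℝ) = 0 := by
  rw [sum_odd, barY_zero, sum_congr rfl (g := fun _ => (0 : ℝ))]
  · simp
  · intro i hi
    have hi' : i < m := by have := mem_range.1 hi; omega
    rw [barY_odd hi', barY_even hi']; simp

theorem sumX : ∑ i ∈ range (2 * m + 1 + 1), (barX m x y i : ℝ)
    = 2 * endBar m y + 2 * ∑ i ∈ range m, (x i : ℝ) := by
  rw [sum_range_succ, sum_odd, barX_zero, barX_last, sum_congr rfl (g := fun i => 2 * (x i : ℝ))]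
  · rw [← mul_sum]; push_cast; ring
  · intro i hi
    rw [barX_odd (mem_range.1 hi), barX_even (mem_range.1 hi)]; push_cast; ring

theorem sumLen : ∑ i ∈ range (2 * m + 1 + 1), √((barX m x y i : ℝ) ^ 2 + (barY m y i : ℝ) ^ 2)
    = 2 * endBar m y + 2 * ∑ i ∈ range m, √((x i : ℝ) ^ 2 + (y i : ℝ) ^ 2) := by
  rw [sum_range_succ, sum_odd, barX_zero, barX_last, barY_zero, barY_last,
    sum_congr rfl (g := fun i => 2 * √((x i : ℝ) ^ 2 + (y i : ℝ) ^ 2))]
  · have : √(((endBar m y : ℤ) : ℝ) ^ 2 + ((0 : ℤ) : ℝ) ^ 2) = endBar m y := by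
      rw [Int.cast_zero, zero_pow two_ne_zero, add_zero, Int.cast_natCast,
        Real.sqrt_sq (Nat.cast_nonneg _)]
    rw [this, ← mul_sum]; ring
  · intro i hi
    have hi' := mem_range.1 hi
    rw [barX_odd hi', barX_even hi', barY_odd hi', barY_even hi']
    push_cast
    rw [neg_sq]; ring

theorem sumY_bounds {j : ℕ} (hj : j ≤ 2 * m + 1 + 1) :
    0 ≤ ∑ i ∈ range j, (barY m y i : ℝ) ∧ ∑ i ∈ range j, (barY m y i : ℝ) ≤ endBar m y := by
  rcases Nat.eq_zero_or_pos j with rfl | hj0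
  · simp
  · obtain ⟨r, hr | hr⟩ : ∃ r, j = 2 * r + 1 ∨ j = 2 * r + 1 + 1 := ⟨(j - 1) / 2, by omega⟩
    · rw [hr, sumY_odd (by omega)]
      exact ⟨le_rfl, Nat.cast_nonneg _⟩
    · rw [hr, sum_range_succ, sumY_odd (by omega), zero_add]
      rcases Nat.lt_or_ge r m with h | h
      · rw [barY_odd h, Int.cast_natCast]
        refine ⟨Nat.cast_nonneg _, ?_⟩
        have : y r ≤ ∑ i ∈ range m, y i :=
          single_le_sum (fun _ _ => Nat.zero_le _) (mem_range.2 h)
        have : y r ≤ endBar m y := by unfold endBar; omega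
        exact_mod_cast this
      · obtain rfl : r = m := by omega
        rw [barY_last]
        exact ⟨by simp, by simp⟩

theorem barX_pos (hx : ∀ i < m, 0 < x i) {i : ℕ} (hi : i < 2 * m + 1 + 1) :
    0 < (barX m x y i : ℝ) := by
  have : 0 < barX m x y i := by
    unfold barX
    split_ifs with h
    · unfold endBar; positivity
    · have := hx ((i - 1) / 2) (by omega)
      exact_mod_cast this
  exact_mod_cast this

theorem chain_eq (hx : ∀ i < m, 0 < x i) (hD : ∑ i ∈ range m, x i < D)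
    (j : Fin (2 * m + 1 + 1 + 1)) :
    chain m x y D j = vx (hyp m y D) (D - ∑ i ∈ range m, (x i : ℝ))
      (fun i => barX m x y i) (fun i => barY m y i) (2 * m + 1) 1 j := by
  have hx0 : 0 < D - ∑ i ∈ range m, (x i : ℝ) := by
    rw [sub_pos]; exact_mod_cast hD
  have hinc : ∀ i ∈ range (2 * m + 1 + 1), inc (fun i => (barX m x y i : ℝ))
      (fun i => (barY m y i : ℝ)) 1 i = barX m x y i := fun i hi =>
    inc_one (barX_pos hx (mem_range.1 hi)).le
  have h1 : ∑ i ∈ range (2 * m + 1 + 1), inc (fun i => (barX m x y i : ℝ))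
      (fun i => (barY m y i : ℝ)) 1 i = 2 * endBar m y + 2 * ∑ i ∈ range m, (x i : ℝ) := by
    rw [sum_congr rfl hinc, sumX]
  have h2 : ∑ i ∈ range (j : ℕ), inc (fun i => (barX m x y i : ℝ))
      (fun i => (barY m y i : ℝ)) 1 i = ∑ i ∈ range (j : ℕ), (barX m x y i : ℝ) :=
    sum_congr rfl fun i hi => hinc i (by
      have := mem_range.1 hi; have := j.2; exact mem_range.2 (by omega))
  have h3 : ((hyp m y D : ℝ) - (2 * endBar m y + 2 * ∑ i ∈ range m, (x i : ℝ))) / 2
      = D - ∑ i ∈ range m, (x i : ℝ) := by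
    unfold hyp; push_cast; ring
  unfold chain vx
  rw [h1, h2, h3]
  congr 1
  rw [one_mul]
  congr 1
  field_simp

end

end Pool.Agent.MP_aff8ab_lc

namespace Pool.Agent.Results.MP_aff8ab_lc.SqrtSumHard

open Pool.Agent.MP_aff8ab_lc

theorem result (m : ℕ) (x y : ℕ → ℕ) (D : ℕ) (hx : ∀ i < m, 0 < x i)
    (hD : ∑ i ∈ range m, x i < D) :
    IsInput (tri (hyp m y D)) (chain m x y D) ∧
    (∀ j, ∃ r s : ℕ, (chain m x y D j).re = r / 2 ∧ (chain m x y D j).im = s / 2 ∧
      r ≤ 2 * hyp m y D ∧ s ≤ 2 * hyp m y D) ∧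
    (CanStraighten (tri (hyp m y D)) (chain m x y D) ↔
      ∑ i ∈ range m, √((x i : ℝ) ^ 2 + (y i : ℝ) ^ 2) < D) := by
  have hx0 : (1 : ℝ) ≤ D - ∑ i ∈ range m, (x i : ℝ) := by
    have : (∑ i ∈ range m, x i) + 1 ≤ D := hD
    have : ((∑ i ∈ range m, x i : ℕ) : ℝ) + 1 ≤ D := by exact_mod_cast this
    push_cast at this
    linarith
  have hL : (0 : ℝ) < hyp m y D := by
    have : 0 < hyp m y D := by unfold hyp endBar; omega
    exact_mod_cast this
  have hp : ∀ i < 2 * m + 1 + 1, 0 < (fun i => (barX m x y i : ℝ)) i := fun i hi =>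
    barX_pos hx hi
  have hH : ∀ j, j ≤ 2 * m + 1 + 1 → 0 ≤ ∑ i ∈ range j, (fun i => (barY m y i : ℝ)) i ∧
      ∑ i ∈ range j, (fun i => (barY m y i : ℝ)) i ≤ (fun i => (barX m x y i : ℝ)) 0 ∧
      ∑ i ∈ range j, (fun i => (barY m y i : ℝ)) i
        ≤ (fun i => (barX m x y i : ℝ)) (2 * m + 1) := by
    intro j hj
    have := sumY_bounds (y := y) hj
    refine ⟨this.1, ?_, ?_⟩
    · simpa [barX_zero] using this.2
    · simpa [barX_last] using this.2
  have hlast : ∑ i ∈ range (2 * m + 1 + 1), (fun i => (barY m y i : ℝ)) i = 0 := by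
    show ∑ i ∈ range (2 * m + 1 + 1), (barY m y i : ℝ) = 0
    rw [sum_range_succ, sumY_odd le_rfl, barY_last]; simp
  have hq0 : (fun i => (barY m y i : ℝ)) 0 = 0 := by simp [barY_zero]
  have hqN : (fun i => (barY m y i : ℝ)) (2 * m + 1) = 0 := by simp [barY_last]
  have h11 : (1 : ℝ) ∈ Set.Icc (0 : ℝ) 1 := ⟨zero_le_one, le_rfl⟩
  have hsum1 : ∑ i ∈ range (2 * m + 1 + 1), inc (fun i => (barX m x y i : ℝ))
      (fun i => (barY m y i : ℝ)) 1 i < (hyp m y D : ℝ) := by
    rw [sum_congr rfl fun i hi => inc_one (hp i (mem_range.1 hi)).le]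
    show ∑ i ∈ range (2 * m + 1 + 1), (barX m x y i : ℝ) < _
    rw [sumX]
    unfold hyp
    push_cast
    linarith
  have hchain : chain m x y D = fun j : Fin (2 * m + 1 + 1 + 1) =>
      vx (hyp m y D) (D - ∑ i ∈ range m, (x i : ℝ))
      (fun i => barX m x y i) (fun i => barY m y i) (2 * m + 1) 1 j := funext (chain_eq hx hD)
  have hreg : ∀ j : Fin (2 * m + 1 + 1 + 1), chain m x y D j ∈ region (hyp m y D) := by
    intro j
    rw [hchain]
    exact vx_region h11 hp hH hlast hq0 hqN hx0 hsum1 (Nat.lt_succ_iff.1 j.2)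
  have hmono : StrictMono fun j : Fin (2 * m + 1 + 1 + 1) => (chain m x y D j).re := by
    rw [hchain]
    exact vx_mono h11 hp
  have hlen : ∑ j : Fin (2 * m + 1 + 1), dist (chain m x y D j.castSucc) (chain m x y D j.succ)
      = 2 * endBar m y + 2 * ∑ i ∈ range m, √((x i : ℝ) ^ 2 + (y i : ℝ) ^ 2) := by
    rw [← sumLen, ← Fin.sum_univ_eq_sum_range
      (fun i => √((barX m x y i : ℝ) ^ 2 + (barY m y i : ℝ) ^ 2))]
    refine Finset.sum_congr rfl fun j _ => ?_
    rw [hchain]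
    exact dist_vx h11 _
  refine ⟨⟨tri_convex hL, fun j => region_subset hL (hreg j), nonSelfIntersecting_of hL hmono hreg,
    ?_, ?_⟩, ?_, ?_, ?_⟩
  · intro i
    fin_cases i
    · exact ⟨0, 0, by simp [tri], by simp [tri]⟩
    · exact ⟨hyp m y D, 0, by simp [tri], by simp [tri]⟩
    · exact ⟨hyp m y D / 2, hyp m y D / 2, by simp [tri], by simp [tri]⟩
  · intro j
    refine ⟨D - ∑ i ∈ range m, (x i : ℚ) + ∑ i ∈ range (j : ℕ), (barX m x y i : ℚ),
      1 / 2 + ∑ i ∈ range (j : ℕ), (barY m y i : ℚ), ?_, ?_⟩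
    · simp only [chain]; push_cast; ring
    · simp only [chain]; push_cast; ring
  · intro j
    obtain ⟨r1, r2, r3⟩ := hreg j
    set r : ℤ := 2 * (D - ∑ i ∈ range m, (x i : ℤ) + ∑ i ∈ range (j : ℕ), barX m x y i) with hr
    set s : ℤ := 1 + 2 * ∑ i ∈ range (j : ℕ), barY m y i with hs
    have er : (chain m x y D j).re = (r : ℝ) / 2 := by
      simp only [chain, hr]; push_cast; ring
    have es : (chain m x y D j).im = (s : ℝ) / 2 := by
      simp only [chain, hs]; push_cast; ring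
    have hr0 : (0 : ℝ) ≤ r := by linarith
    have hs0 : (0 : ℝ) ≤ s := by linarith
    have hr1 : (r : ℝ) ≤ ((2 * hyp m y D : ℕ) : ℤ) := by push_cast; linarith
    have hs1 : (s : ℝ) ≤ ((2 * hyp m y D : ℕ) : ℤ) := by push_cast; linarith
    have hr0' : 0 ≤ r := by exact_mod_cast hr0
    have hs0' : 0 ≤ s := by exact_mod_cast hs0
    have hr1' : r ≤ ((2 * hyp m y D : ℕ) : ℤ) := by exact_mod_cast hr1
    have hs1' : s ≤ ((2 * hyp m y D : ℕ) : ℤ) := by exact_mod_cast hs1
    obtain ⟨r', hr'⟩ := Int.eq_ofNat_of_zero_le hr0'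
    obtain ⟨s', hs'⟩ := Int.eq_ofNat_of_zero_le hs0'
    refine ⟨r', s', ?_, ?_, by omega, by omega⟩
    · rw [er, hr', Int.cast_natCast]
    · rw [es, hs', Int.cast_natCast]
  · intro h
    have hd : ∀ i, dist (tri (hyp m y D) i) (tri (hyp m y D) (i + 1)) ≤ hyp m y D := by
      intro i
      rw [Complex.dist_eq_re_im, Real.sqrt_le_iff]
      refine ⟨hL.le, ?_⟩
      fin_cases i
      · show ((0 : ℂ).re - (⟨hyp m y D, 0⟩ : ℂ).re) ^ 2
          + ((0 : ℂ).im - (⟨hyp m y D, 0⟩ : ℂ).im) ^ 2 ≤ _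
        simp
      · show ((⟨hyp m y D, 0⟩ : ℂ).re - (⟨hyp m y D / 2, hyp m y D / 2⟩ : ℂ).re) ^ 2
          + ((⟨hyp m y D, 0⟩ : ℂ).im - (⟨hyp m y D / 2, hyp m y D / 2⟩ : ℂ).im) ^ 2 ≤ _
        simp only
        nlinarith
      · show ((⟨hyp m y D / 2, hyp m y D / 2⟩ : ℂ).re - (0 : ℂ).re) ^ 2
          + ((⟨hyp m y D / 2, hyp m y D / 2⟩ : ℂ).im - (0 : ℂ).im) ^ 2 ≤ _
        simp only [Complex.zero_re, Complex.zero_im]
        nlinarith
    have := length_lt (k := 2 * m + 1 + 1) (D := (hyp m y D : ℝ)) (by omega)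
      (area_tri_ne hL 0) (fun j => interior_subset (region_subset hL (hreg j)))
      (hd 0) (hd 1) (hd 2) hL h
    rw [hlen] at this
    unfold hyp at this
    push_cast at this
    linarith
  · intro h
    rw [hchain]
    refine canStraighten_of hp hH hlast hq0 hqN hx0 ?_
    show ∑ i ∈ range (2 * m + 1 + 1), √((barX m x y i : ℝ) ^ 2 + (barY m y i : ℝ) ^ 2) < _
    rw [sumLen]
    unfold hyp
    push_cast
    linarith

end Pool.Agent.Results.MP_aff8ab_lc.SqrtSumHard
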