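import Pool.Agent.Work.MP_aff8ab_lc.P.Final

/-!
# NESTED-UNLOCK is NP-hard

The decision problem NESTED-UNLOCK: given a closed chain that is a convex polygon and an open
chain in its interior, all vertices with rational coordinates, is there a motion of the two chains
that avoids self-intersection and straightens the open chain?  We prove that every language in NP
reduces to it by a polynomial time many-one reduction, computed by one of Mathlib's machines
(`TM2ComputableInPolyTime`), and that the closed chains produced by the reduction are triangles.

The definitions of the geometric notions (`IsConvexPolygon`, `NonSelfIntersecting`, `Straight`,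
`IsMotion`, `IsInput`, `CanStraighten`) are in `Pool.Agent.Work.MP_aff8ab_lc.Defs`.
-/

open Turing Pool.Agent.MP_aff8ab_lc

namespace Pool.Agent.Results.MP_aff8ab_lc.UnlockNPHard

/-- A point with rational coordinates: `((a, b), (c, d))` is the point `(a / b, c / d)`. -/
abbrev Pt : Type := (ℤ × ℕ) × (ℤ × ℕ)

/-- An instance: the list of the vertices of the closed chain and the list of the vertices of the
open chain. -/
abbrev Inst : Type := List Pt × List Pt

/-- The point of the plane with these coordinates. -/
noncomputable def toC (p : Pt) : ℂ := ⟨(p.1.1 : ℝ) / p.1.2, (p.2.1 : ℝ) / p.2.2⟩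

/-- A natural number in binary (least significant digit first): every digit is preceded by
`true`, the end is marked by `false`. -/
def encNat (n : ℕ) : List Bool := n.bits.flatMap (fun b => [true, b]) ++ [false]

/-- An integer: the sign, then the absolute value in binary. -/
def encInt (z : ℤ) : List Bool := decide (z < 0) :: encNat z.natAbs

/-- A fraction: numerator, then denominator. -/
def encFrac (r : ℤ × ℕ) : List Bool := encInt r.1 ++ encNat r.2

/-- A point: first coordinate, then second coordinate. -/
def encPt (p : Pt) : List Bool := encFrac p.1 ++ encFrac p.2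

/-- A list of points: every point is preceded by `true`, the end is marked by `false`. -/
def encPts (l : List Pt) : List Bool := l.flatMap (fun p => true :: encPt p) ++ [false]

/-- The encoding of an instance as a string of bits. -/
def encInst (I : Inst) : List Bool := encPts I.1 ++ encPts I.2

/-- The instance `I` describes the closed chain with vertices `c 0, ..., c (n + 2)` and the open
chain with vertices `a 0, ..., a (k + 1)`. -/
def Describes (I : Inst) {n k : ℕ} (c : Fin (n + 3) → ℂ) (a : Fin (k + 1 + 1) → ℂ) : Prop :=
  (∀ p ∈ I.1 ++ I.2, p.1.2 ≠ 0 ∧ p.2.2 ≠ 0) ∧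
    I.1.map toC = List.ofFn c ∧ I.2.map toC = List.ofFn a

/-- `I` is an input of NESTED-UNLOCK: nonzero denominators, the closed chain is a convex polygon,
the open chain has at least one bar, all its bars have positive length, it lies in the interior of
the polygon, and the two chains are non-self-intersecting. -/
def Valid (I : Inst) : Prop :=
  ∃ (n k : ℕ) (c : Fin (n + 3) → ℂ) (a : Fin (k + 1 + 1) → ℂ), Describes I c a ∧
    IsInput c a ∧ ∀ j : Fin (k + 1), a j.castSucc ≠ a j.succ

/-- `I` is an input of NESTED-UNLOCK and the answer is yes. -/
def Yes (I : Inst) : Prop :=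
  ∃ (n k : ℕ) (c : Fin (n + 3) → ℂ) (a : Fin (k + 1 + 1) → ℂ), Describes I c a ∧
    IsInput c a ∧ (∀ j : Fin (k + 1), a j.castSucc ≠ a j.succ) ∧ CanStraighten c a

/-- The string `y#x` over the alphabet `0, 1, #`, for the pair `(x, y)`. -/
def pairEnc (z : List Bool × List Bool) : List (Option Bool) :=
  z.2.map some ++ none :: z.1.map some

/-- Languages in NP: there are a verifier `V`, computed in polynomial time by one of Mathlib's
machines from the string `y#x`, and a polynomial `p` bounding the length of the certificates. -/
def InNP (L : Set (List Bool)) : Prop :=
  ∃ (V : List Bool × List Bool → Bool) (p : Polynomial ℕ),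
    Nonempty (TM2ComputableInPolyTime pairEnc (fun b : Bool => [b]) V) ∧
    ∀ x : List Bool, x ∈ L ↔ ∃ y : List Bool, y.length ≤ p.eval x.length ∧ V (x, y) = true

/-- NESTED-UNLOCK is NP-hard, already when the closed chain is a triangle. -/
theorem result : ∀ L : Set (List Bool), InNP L → ∃ f : List Bool → Inst,
    Nonempty (TM2ComputableInPolyTime (fun x : List Bool => x) encInst f) ∧
    ∀ x, Valid (f x) ∧ (f x).1.length = 3 ∧ (x ∈ L ↔ Yes (f x)) :=
  fun L hL => P.np_hard_tri L hL

end Pool.Agent.Results.MP_aff8ab_lc.UnlockNPHard
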